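import Mathlib

set_option autoImplicit false

/-!
Graph powers of finite nonabelian groups: for a graph `Γ` on `n` vertices whose RA matrix has `k`
nontrivial elementary divisors there is a finite nonabelian group `G` with
`Comm_b(G, Γ) ≅ [G, G]^(n - k)` and `Γ` `G`-RA if and only if no two distinct vertices of `Γ` have
the same closed neighbourhood. For such graphs the affine group of the line over the field with
`p^2` elements works, where `p` is any prime that divides all nontrivial elementary divisors.
-/

open scoped commutatorElement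

namespace Pool.Agent.Results.MP_8f3806_al.TwinFree

section Defs

variable {n : ℕ}

/-- The closed neighbourhood `N[v]`. -/
def closedNbhd (Γ : SimpleGraph (Fin n)) (v : Fin n) : Set (Fin n) := {u | u = v ∨ Γ.Adj v u}

open Classical in
/-- The indicator vector of a set of vertices. -/
noncomputable def ind (S : Set (Fin n)) : Fin n → ℤ := fun v => if v ∈ S then 1 else 0

/-- The element `g^x = (g^(x_v))_v` of the direct power of `G`. -/
def gpow {G : Type} [Group G] (g : G) (x : Fin n → ℤ) : Fin n → G := fun v => g ^ x v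

/-- The graph power `G^Γ`, generated by the elements `g^v = g^(1_{N[v]})`. -/
def graphPower (G : Type) [Group G] (Γ : SimpleGraph (Fin n)) : Subgroup (Fin n → G) :=
  Subgroup.closure {p | ∃ (g : G) (v : Fin n), p = gpow g (ind (closedNbhd Γ v))}

/-- `Γ` is `G`-RA: the direct power of `[G, G]` is contained in `G^Γ`. -/
def IsRA (G : Type) [Group G] (Γ : SimpleGraph (Fin n)) : Prop :=
  Subgroup.pi Set.univ (fun _ : Fin n => commutator G) ≤ graphPower G Γ

/-- The subgroup `Comm_b(G, Γ)` generated by the commutators `[g^v, h^w]`. -/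
def commB (G : Type) [Group G] (Γ : SimpleGraph (Fin n)) : Subgroup (Fin n → G) :=
  Subgroup.closure {p | ∃ (g h : G) (v w : Fin n),
    p = ⁅gpow g (ind (closedNbhd Γ v)), gpow h (ind (closedNbhd Γ w))⁆}

/-- The RA matrix: its rows are the indicator vectors of the sets `N[u] ∩ N[v]`. -/
noncomputable def raMatrix (Γ : SimpleGraph (Fin n)) : Matrix (Fin n × Fin n) (Fin n) ℤ :=
  fun p w => ind (closedNbhd Γ p.1 ∩ closedNbhd Γ p.2) w

/-- `d` is the sequence of elementary divisors of the RA matrix `C`: the entries are nonnegative,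
each divides the next, and `P C Q` is the diagonal matrix with diagonal entries `d` (the diagonal
positions being the row `(l, l)` and the column `l`), for some unimodular matrices `P` and `Q`. -/
structure IsElementaryDivisors (Γ : SimpleGraph (Fin n)) (d : Fin n → ℤ) : Prop where
  nonneg : ∀ i, 0 ≤ d i
  dvd : ∀ i j, i ≤ j → d i ∣ d j
  snf : ∃ (P : Matrix (Fin n × Fin n) (Fin n × Fin n) ℤ) (Q : Matrix (Fin n) (Fin n) ℤ),
    IsUnit P.det ∧ IsUnit Q.det ∧
      P * raMatrix Γ * Q = Matrix.of fun (p : Fin n × Fin n) l => if p = (l, l) then d l else 0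

end Defs

/-! ### The affine group of the line -/

/-- The affine maps `x ↦ a x + b`. -/
@[ext] structure Aff (F : Type) [Field F] where
  b : F
  a : Fˣ

namespace Aff

variable {F : Type} [Field F]

instance : Mul (Aff F) := ⟨fun g h => ⟨g.b + g.a * h.b, g.a * h.a⟩⟩
instance : One (Aff F) := ⟨⟨0, 1⟩⟩
instance : Inv (Aff F) := ⟨fun g => ⟨-((g.a⁻¹ : Fˣ) * g.b), g.a⁻¹⟩⟩

lemma mul_b (g h : Aff F) : (g * h).b = g.b + g.a * h.b := rfl
lemma mul_a (g h : Aff F) : (g * h).a = g.a * h.a := rfl
lemma one_b : (1 : Aff F).b = 0 := rfl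
lemma one_a : (1 : Aff F).a = 1 := rfl
lemma inv_b (g : Aff F) : (g⁻¹).b = -((g.a⁻¹ : Fˣ) * g.b) := rfl
lemma inv_a (g : Aff F) : (g⁻¹).a = g.a⁻¹ := rfl

instance : Group (Aff F) := Group.ofLeftAxioms
  (by
    intro x y z
    ext
    · simp only [mul_b, mul_a, Units.val_mul]; ring
    · simp only [mul_a, mul_assoc])
  (by
    intro x
    ext
    · simp only [mul_b, one_b, one_a, Units.val_one]; ring
    · simp only [mul_a, one_a, one_mul])
  (by
    intro x
    ext
    · simp only [mul_b, inv_b, inv_a, one_b]; ring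
    · simp only [mul_a, inv_a, one_a, inv_mul_cancel])

instance [Finite F] : Finite (Aff F) := by
  apply Finite.of_injective (fun g : Aff F => (g.b, g.a))
  intro g h hgh
  have := Prod.ext_iff.mp hgh
  exact Aff.ext this.1 this.2

/-- The translations. -/
def tr : Multiplicative F →* Aff F where
  toFun x := ⟨x.toAdd, 1⟩
  map_one' := rfl
  map_mul' x y := by
    ext
    · simp only [mul_b, toAdd_mul, Units.val_one]; ring
    · simp [mul_a]

lemma tr_b (x : F) : (tr (Multiplicative.ofAdd x)).b = x := rfl
lemma tr_a (x : F) : (tr (Multiplicative.ofAdd x)).a = 1 := rfl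

lemma comm_eq (g h : Aff F) :
    ⁅g, h⁆ = tr (Multiplicative.ofAdd (g.b * (1 - h.a) - h.b * (1 - g.a))) := by
  rw [commutatorElement_def]
  apply Aff.ext
  · simp only [mul_b, mul_a, inv_b, inv_a, tr_b, Units.val_mul, Units.val_inv_eq_inv_val]
    have h1 : (g.a : F) ≠ 0 := g.a.ne_zero
    have h2 : (h.a : F) ≠ 0 := h.a.ne_zero
    field_simp
    ring
  · simp only [mul_a, inv_a, tr_a]
    rw [mul_right_comm g.a h.a g.a⁻¹, mul_inv_cancel, one_mul, mul_inv_cancel]

lemma eq_tr {g : Aff F} (hg : g.a = 1) : g = tr (Multiplicative.ofAdd g.b) := by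
  ext
  · rfl
  · rw [tr_a, hg]

/-- Every translation is a commutator. -/
lemma tr_eq_comm {u : Fˣ} (hu : u ≠ 1) (c : F) :
    tr (Multiplicative.ofAdd c) =
      ⁅(tr (Multiplicative.ofAdd (c / (1 - u))) : Aff F), (⟨0, u⟩ : Aff F)⁆ := by
  have h : (1 : F) - u ≠ 0 := by
    intro h
    apply hu
    rw [Units.ext_iff, Units.val_one]
    exact (sub_eq_zero.mp h).symm
  rw [comm_eq]
  congr 2
  rw [tr_b, tr_a]
  simp only [zero_mul, sub_zero]
  rw [div_mul_cancel₀ _ h]

lemma mem_commutator_iff {u : Fˣ} (hu : u ≠ 1) (g : Aff F) : g ∈ commutator (Aff F) ↔ g.a = 1 := by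
  constructor
  · intro hg
    have hle : commutator (Aff F) ≤
        (MonoidHom.ker (⟨⟨fun g : Aff F => g.a, rfl⟩, fun _ _ => rfl⟩ : Aff F →* Fˣ)) := by
      rw [commutator_eq_closure, Subgroup.closure_le]
      rintro _ ⟨g, h, rfl⟩
      rw [SetLike.mem_coe, MonoidHom.mem_ker, map_commutatorElement, commutatorElement_def]
      rw [mul_right_comm _ _ (_)⁻¹]
      simp
    exact hle hg
  · intro hg
    rw [eq_tr hg, tr_eq_comm hu]
    exact Subgroup.commutator_mem_commutator (Subgroup.mem_top _) (Subgroup.mem_top _)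

end Aff

section Main

variable {n : ℕ} {Γ : SimpleGraph (Fin n)}

lemma gpow_ind {G : Type} [Group G] (g : G) (S : Set (Fin n)) (v : Fin n) [Decidable (v ∈ S)] :
    gpow g (ind S) v = if v ∈ S then g else 1 := by
  unfold gpow ind
  by_cases h : v ∈ S
  · rw [if_pos h, if_pos h, zpow_one]
  · rw [if_neg h, if_neg h, zpow_zero]

/-- A graph with two vertices with the same closed neighbourhood is not `G`-RA. -/
lemma not_isRA_of_twins {G : Type} [Group G] (hG : ∃ a b : G, a * b ≠ b * a) {u w : Fin n}
    (huw : u ≠ w) (hN : closedNbhd Γ u = closedNbhd Γ w) : ¬ IsRA G Γ := by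
  classical
  intro h
  have hsymm : ∀ v, u ∈ closedNbhd Γ v ↔ w ∈ closedNbhd Γ v := by
    have key : ∀ x v : Fin n, x ∈ closedNbhd Γ v ↔ v ∈ closedNbhd Γ x := by
      intro x v
      simp only [closedNbhd, Set.mem_ofPred_eq]
      constructor
      · rintro (h | h)
        · exact Or.inl h.symm
        · exact Or.inr h.symm
      · rintro (h | h)
        · exact Or.inl h.symm
        · exact Or.inr h.symm
    intro v
    rw [key u v, key w v, hN]
  have hle : ∀ f ∈ graphPower G Γ, f u = f w := by
    intro f hf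
    refine Subgroup.closure_induction (p := fun f _ => f u = f w) ?_ rfl ?_ ?_ hf
    · rintro _ ⟨g, v, rfl⟩
      rw [gpow_ind, gpow_ind]
      by_cases hv : u ∈ closedNbhd Γ v
      · rw [if_pos hv, if_pos ((hsymm v).mp hv)]
      · rw [if_neg hv, if_neg (fun h => hv ((hsymm v).mpr h))]
    · intro x y _ _ hx hy
      rw [Pi.mul_apply, Pi.mul_apply, hx, hy]
    · intro x _ hx
      rw [Pi.inv_apply, Pi.inv_apply, hx]
  obtain ⟨a, b, hab⟩ := hG
  have hc : ⁅a, b⁆ ≠ 1 := fun hc => hab (commutatorElement_eq_one_iff_mul_comm.mp hc)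
  have hmem : (Pi.mulSingle u ⁅a, b⁆ : Fin n → G) ∈ graphPower G Γ := by
    apply h
    rw [Subgroup.mem_pi]
    intro i _
    by_cases hi : i = u
    · subst hi
      rw [Pi.mulSingle_eq_same]
      exact Subgroup.commutator_mem_commutator (Subgroup.mem_top _) (Subgroup.mem_top _)
    · rw [Pi.mulSingle_eq_of_ne hi]
      exact Subgroup.one_mem _
  have := hle _ hmem
  rw [Pi.mulSingle_eq_same, Pi.mulSingle_eq_of_ne huw.symm] at this
  exact hc this

variable {F : Type} [Field F]

/-- The element of the power of the affine group with translations as coordinates. -/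
def trv : Multiplicative (Fin n → F) →* (Fin n → Aff F) where
  toFun x := fun v => Aff.tr (Multiplicative.ofAdd (x.toAdd v))
  map_one' := by ext v <;> rfl
  map_mul' x y := by
    funext v
    rw [Pi.mul_apply, ← map_mul]
    rfl

lemma trv_apply (x : Fin n → F) (v : Fin n) :
    trv (Multiplicative.ofAdd x) v = Aff.tr (Multiplicative.ofAdd (x v)) := rfl

lemma trv_injective : Function.Injective (trv : Multiplicative (Fin n → F) →* (Fin n → Aff F)) := by
  intro x y h
  have : x.toAdd = y.toAdd := by
    funext v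
    exact congrArg Aff.b (congrFun h v)
  exact this

/-- The row space of the RA matrix over `F`. -/
noncomputable def rowSpace (Γ : SimpleGraph (Fin n)) (F : Type) [Field F] :
    Submodule F (Fin n → F) :=
  Submodule.span F (Set.range ((raMatrix Γ).map (Int.cast : ℤ → F)).row)

lemma comm_gpow (g h : Aff F) (p : Fin n × Fin n) :
    ⁅gpow g (ind (closedNbhd Γ p.1)), gpow h (ind (closedNbhd Γ p.2))⁆ =
      trv (Multiplicative.ofAdd ((g.b * (1 - h.a) - h.b * (1 - g.a)) •
        ((raMatrix Γ).map (Int.cast : ℤ → F)).row p)) := by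
  classical
  funext v
  rw [trv_apply]
  have h0 : ⁅gpow g (ind (closedNbhd Γ p.1)), gpow h (ind (closedNbhd Γ p.2))⁆ v =
      ⁅gpow g (ind (closedNbhd Γ p.1)) v, gpow h (ind (closedNbhd Γ p.2)) v⁆ := rfl
  rw [h0, gpow_ind, gpow_ind]
  have h1 : ((raMatrix Γ).map (Int.cast : ℤ → F)).row p v =
      if v ∈ closedNbhd Γ p.1 ∩ closedNbhd Γ p.2 then 1 else 0 := by
    simp only [Matrix.row, Matrix.map_apply, raMatrix, ind]
    split_ifs <;> simp
  rw [Pi.smul_apply, h1, smul_eq_mul]
  by_cases h2 : v ∈ closedNbhd Γ p.1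
  · by_cases h3 : v ∈ closedNbhd Γ p.2
    · rw [if_pos h2, if_pos h3, if_pos ⟨h2, h3⟩, mul_one, Aff.comm_eq]
    · have h4 : v ∉ closedNbhd Γ p.1 ∩ closedNbhd Γ p.2 := fun hh => h3 hh.2
      rw [if_neg h3, if_neg h4, mul_zero, commutatorElement_one_right]
      exact (map_one (Aff.tr (F := F))).symm
  · have h4 : v ∉ closedNbhd Γ p.1 ∩ closedNbhd Γ p.2 := fun hh => h2 hh.1
    rw [if_neg h2, if_neg h4, mul_zero, commutatorElement_one_left]
    exact (map_one (Aff.tr (F := F))).symm

lemma mem_commB_iff {u : Fˣ} (hu : u ≠ 1) (f : Fin n → Aff F) :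
    f ∈ commB (Aff F) Γ ↔ ∃ x ∈ rowSpace Γ F, trv (Multiplicative.ofAdd x) = f := by
  constructor
  · intro hf
    refine Subgroup.closure_induction
      (p := fun f _ => ∃ x ∈ rowSpace Γ F, trv (Multiplicative.ofAdd x) = f) ?_ ?_ ?_ ?_ hf
    · rintro _ ⟨g, h, v, w, rfl⟩
      exact ⟨_, Submodule.smul_mem _ _ (Submodule.subset_span ⟨(v, w), rfl⟩),
        (comm_gpow g h (v, w)).symm⟩
    · exact ⟨0, Submodule.zero_mem _, map_one _⟩
    · rintro _ _ _ _ ⟨x, hx, rfl⟩ ⟨y, hy, rfl⟩
      exact ⟨x + y, Submodule.add_mem _ hx hy, map_mul _ _ _⟩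
    · rintro _ _ ⟨x, hx, rfl⟩
      exact ⟨-x, Submodule.neg_mem _ hx, map_inv _ _⟩
  · rintro ⟨x, hx, rfl⟩
    have key : ∀ c : F, trv (Multiplicative.ofAdd (c • x)) ∈ commB (Aff F) Γ := by
      refine Submodule.span_induction
        (p := fun x _ => ∀ c : F, trv (Multiplicative.ofAdd (c • x)) ∈ commB (Aff F) Γ)
        ?_ ?_ ?_ ?_ hx
      · rintro _ ⟨p, rfl⟩ c
        have h1 := comm_gpow (Γ := Γ) (Aff.tr (Multiplicative.ofAdd (c / (1 - u))) : Aff F)
          (⟨0, u⟩ : Aff F) p
        have h2 : ((Aff.tr (Multiplicative.ofAdd (c / (1 - (u : F)))) : Aff F).b *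
            (1 - ((⟨0, u⟩ : Aff F).a : F)) - (⟨0, u⟩ : Aff F).b *
            (1 - ((Aff.tr (Multiplicative.ofAdd (c / (1 - (u : F)))) : Aff F).a : F))) = c := by
          have h : (1 : F) - u ≠ 0 := by
            intro h
            apply hu
            rw [Units.ext_iff, Units.val_one]
            exact (sub_eq_zero.mp h).symm
          rw [Aff.tr_b]
          simp only [zero_mul, sub_zero]
          rw [div_mul_cancel₀ _ h]
        rw [h2] at h1
        rw [← h1]
        exact Subgroup.subset_closure ⟨_, _, _, _, rfl⟩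
      · intro c
        rw [smul_zero]
        exact (map_one (trv (n := n) (F := F))).symm ▸ Subgroup.one_mem _
      · intro x y _ _ hx hy c
        rw [smul_add, ofAdd_add, map_mul]
        exact Subgroup.mul_mem _ (hx c) (hy c)
      · intro a x _ hx c
        rw [smul_smul]
        exact hx _
    have := key 1
    rwa [one_smul] at this

/-- The vectors of translations in the graph power, closed under scalars. -/
def good (Γ : SimpleGraph (Fin n)) (x : Fin n → F) : Prop :=
  ∀ c : F, trv (Multiplicative.ofAdd (c • x)) ∈ graphPower (Aff F) Γ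

lemma good_add {x y : Fin n → F} (hx : good Γ x) (hy : good Γ y) : good Γ (x + y) := by
  intro c
  rw [smul_add, ofAdd_add, map_mul]
  exact Subgroup.mul_mem _ (hx c) (hy c)

lemma good_sub {x y : Fin n → F} (hx : good Γ x) (hy : good Γ y) : good Γ (x - y) := by
  intro c
  rw [smul_sub, ofAdd_sub, map_div]
  exact Subgroup.div_mem _ (hx c) (hy c)

lemma good_zero : good Γ (0 : Fin n → F) := by
  intro c
  rw [smul_zero]
  exact (map_one (trv (n := n) (F := F))).symm ▸ Subgroup.one_mem _

lemma good_sum {ι : Type} (s : Finset ι) {x : ι → Fin n → F} (h : ∀ i ∈ s, good Γ (x i)) :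
    good Γ (∑ i ∈ s, x i) := by
  classical
  induction s using Finset.induction_on with
  | empty => simpa using good_zero
  | @insert a s ha ih =>
    rw [Finset.sum_insert ha]
    exact good_add (h a (Finset.mem_insert_self a s))
      (ih fun i hi => h i (Finset.mem_insert_of_mem hi))

open Classical in
/-- The indicator function with values in `F`. -/
noncomputable def indF (F : Type) [Field F] (S : Set (Fin n)) : Fin n → F :=
  fun v => if v ∈ S then 1 else 0

lemma good_nbhd (v : Fin n) : good Γ (indF F (closedNbhd Γ v)) := by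
  classical
  intro c
  apply Subgroup.subset_closure
  refine ⟨Aff.tr (Multiplicative.ofAdd c), v, ?_⟩
  funext w
  rw [trv_apply, gpow_ind, Pi.smul_apply, smul_eq_mul]
  unfold indF
  by_cases h : w ∈ closedNbhd Γ v
  · rw [if_pos h, if_pos h, mul_one]
  · rw [if_neg h, if_neg h, mul_zero]
    exact map_one _

lemma good_inter {u : Fˣ} (hu : u ≠ 1) {S : Set (Fin n)} (hS : good Γ (indF F S)) (v : Fin n) :
    good Γ (indF F (S ∩ closedNbhd Γ v)) := by
  classical
  intro c
  have h : (1 : F) - u ≠ 0 := by
    intro h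
    apply hu
    rw [Units.ext_iff, Units.val_one]
    exact (sub_eq_zero.mp h).symm
  have h1 := hS (c / (1 - u))
  have h2 : gpow (⟨0, u⟩ : Aff F) (ind (closedNbhd Γ v)) ∈ graphPower (Aff F) Γ :=
    Subgroup.subset_closure ⟨_, v, rfl⟩
  have h3 : ⁅trv (Multiplicative.ofAdd ((c / (1 - (u : F))) • indF F S)),
      gpow (⟨0, u⟩ : Aff F) (ind (closedNbhd Γ v))⁆ ∈ graphPower (Aff F) Γ := by
    rw [commutatorElement_def]
    exact Subgroup.mul_mem _ (Subgroup.mul_mem _ (Subgroup.mul_mem _ h1 h2)
      (Subgroup.inv_mem _ h1)) (Subgroup.inv_mem _ h2)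
  have h4 : ⁅trv (Multiplicative.ofAdd ((c / (1 - (u : F))) • indF F S)),
      gpow (⟨0, u⟩ : Aff F) (ind (closedNbhd Γ v))⁆ =
      trv (Multiplicative.ofAdd (c • indF F (S ∩ closedNbhd Γ v))) := by
    funext w
    have h0 : ⁅trv (Multiplicative.ofAdd ((c / (1 - (u : F))) • indF F S)),
        gpow (⟨0, u⟩ : Aff F) (ind (closedNbhd Γ v))⁆ w =
        ⁅trv (Multiplicative.ofAdd ((c / (1 - (u : F))) • indF F S)) w,
          gpow (⟨0, u⟩ : Aff F) (ind (closedNbhd Γ v)) w⁆ := rfl
    rw [h0, trv_apply, trv_apply, gpow_ind, Pi.smul_apply, Pi.smul_apply, smul_eq_mul, smul_eq_mul]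
    unfold indF
    by_cases hv : w ∈ closedNbhd Γ v
    · rw [if_pos hv, Aff.comm_eq, Aff.tr_b, Aff.tr_a]
      by_cases hS : w ∈ S
      · rw [if_pos hS, if_pos ⟨hS, hv⟩]
        congr 2
        simp only [zero_mul, sub_zero, mul_one]
        rw [div_mul_cancel₀ _ h]
      · have h4 : w ∉ S ∩ closedNbhd Γ v := fun hh => hS hh.1
        rw [if_neg hS, if_neg h4]
        congr 2
        simp
    · have h4 : w ∉ S ∩ closedNbhd Γ v := fun hh => hv hh.2
      rw [if_neg hv, if_neg h4, mul_zero, commutatorElement_one_right]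
      exact (map_one (Aff.tr (F := F))).symm
  rw [h4] at h3
  exact h3

lemma mem_closedNbhd_comm (x v : Fin n) : x ∈ closedNbhd Γ v ↔ v ∈ closedNbhd Γ x := by
  simp only [closedNbhd, Set.mem_ofPred_eq]
  constructor
  · rintro (h | h)
    · exact Or.inl h.symm
    · exact Or.inr h.symm
  · rintro (h | h)
    · exact Or.inl h.symm
    · exact Or.inr h.symm

/-- The intersection of the closed neighbourhoods that contain `v`. -/
def core (Γ : SimpleGraph (Fin n)) (v : Fin n) : Set (Fin n) :=
  {w | closedNbhd Γ v ⊆ closedNbhd Γ w}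

lemma good_core {u : Fˣ} (hu : u ≠ 1) (v : Fin n) : good Γ (indF F (core Γ v)) := by
  classical
  have key : ∀ T : Finset (Fin n), good Γ (indF F (closedNbhd Γ v ∩ {w | ∀ z ∈ T, w ∈ closedNbhd Γ z})) := by
    intro T
    induction T using Finset.induction_on with
    | empty =>
      have : closedNbhd Γ v ∩ {w | ∀ z ∈ (∅ : Finset (Fin n)), w ∈ closedNbhd Γ z} = closedNbhd Γ v := by
        ext w; simp
      rw [this]
      exact good_nbhd v
    | @insert a T ha ih =>
      have : closedNbhd Γ v ∩ {w | ∀ z ∈ insert a T, w ∈ closedNbhd Γ z} =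
          (closedNbhd Γ v ∩ {w | ∀ z ∈ T, w ∈ closedNbhd Γ z}) ∩ closedNbhd Γ a := by
        ext w
        simp only [Finset.mem_insert, forall_eq_or_imp, Set.mem_inter_iff, Set.mem_ofPred_eq]
        tauto
      rw [this]
      exact good_inter hu ih a
  have h := key (Finset.univ.filter fun z => z ∈ closedNbhd Γ v)
  have : closedNbhd Γ v ∩ {w | ∀ z ∈ Finset.univ.filter (fun z => z ∈ closedNbhd Γ v),
      w ∈ closedNbhd Γ z} = core Γ v := by
    ext w
    simp only [Finset.mem_filter, Finset.mem_univ, true_and, Set.mem_inter_iff,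
      Set.mem_ofPred_eq, core]
    constructor
    · rintro ⟨-, h⟩ z hz
      exact (mem_closedNbhd_comm z w).mpr (h z hz)
    · intro h
      refine ⟨?_, fun z hz => (mem_closedNbhd_comm w z).mpr (h hz)⟩
      exact (mem_closedNbhd_comm w v).mpr (h (Or.inl rfl))
  rwa [this] at h

lemma good_single {u : Fˣ} (hu : u ≠ 1)
    (htf : ∀ v w, closedNbhd Γ v = closedNbhd Γ w → v = w) :
    ∀ (m : ℕ) (v : Fin n), (core Γ v).ncard ≤ m → good Γ (indF F {v}) := by
  classical
  intro m
  induction m with
  | zero =>
    intro v hv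
    exfalso
    have h1 : v ∈ core Γ v := Set.Subset.refl _
    have h2 : 0 < (core Γ v).ncard := (Set.ncard_pos (Set.toFinite _)).mpr ⟨v, h1⟩
    omega
  | succ m ih =>
    intro v hv
    have hsub : ∀ w ∈ core Γ v, w ≠ v → good Γ (indF F {w}) := by
      intro w hw hne
      apply ih
      have h1 : core Γ w ⊂ core Γ v := by
        refine ⟨fun z hz => Set.Subset.trans hw hz, fun h => ?_⟩
        have h2 : v ∈ core Γ w := h (Set.Subset.refl _)
        exact hne (htf w v (Set.Subset.antisymm h2 hw))
      have h2 := Set.ncard_lt_ncard h1 (Set.toFinite _)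
      omega
    have h1 := good_core (Γ := Γ) hu v
    have h2 : good Γ (∑ w ∈ Finset.univ.filter (fun w => w ∈ core Γ v ∧ w ≠ v), indF F {w}) := by
      apply good_sum
      intro w hw
      rw [Finset.mem_filter] at hw
      exact hsub w hw.2.1 hw.2.2
    have h3 : indF F (core Γ v) -
        ∑ w ∈ Finset.univ.filter (fun w => w ∈ core Γ v ∧ w ≠ v), indF F {w} = indF F {v} := by
      funext z
      rw [Pi.sub_apply, Finset.sum_apply]
      have h4 : ∑ w ∈ Finset.univ.filter (fun w => w ∈ core Γ v ∧ w ≠ v), indF F {w} z =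
          if z ∈ core Γ v ∧ z ≠ v then 1 else 0 := by
        unfold indF
        simp only [Set.mem_singleton_iff]
        rw [Finset.sum_ite_eq]
        simp only [Finset.mem_filter, Finset.mem_univ, true_and]
      rw [h4]
      unfold indF
      simp only [Set.mem_singleton_iff]
      by_cases hz : z = v
      · subst hz
        have : z ∈ core Γ z := Set.Subset.refl _
        simp [this]
      · by_cases hz' : z ∈ core Γ v
        · simp [hz, hz']
        · simp [hz, hz']
    rw [← h3]
    exact good_sub h1 h2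

lemma isRA_aff {u : Fˣ} (hu : u ≠ 1)
    (htf : ∀ v w, closedNbhd Γ v = closedNbhd Γ w → v = w) : IsRA (Aff F) Γ := by
  classical
  intro f hf
  rw [Subgroup.mem_pi] at hf
  have hf' : ∀ v, (f v).a = 1 := fun v => (Aff.mem_commutator_iff hu _).mp (hf v (Set.mem_univ v))
  have h1 : f = trv (Multiplicative.ofAdd (∑ v, (f v).b • indF F {v})) := by
    funext w
    rw [trv_apply, Finset.sum_apply]
    have : ∑ v, ((f v).b • indF F {v}) w = (f w).b := by
      unfold indF
      simp only [Pi.smul_apply, Set.mem_singleton_iff, smul_eq_mul, mul_ite, mul_one, mul_zero]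
      rw [Finset.sum_ite_eq]
      simp
    rw [this]
    exact Aff.eq_tr (hf' w)
  have h2 : ∀ s : Finset (Fin n),
      trv (Multiplicative.ofAdd (∑ v ∈ s, (f v).b • indF F {v})) ∈ graphPower (Aff F) Γ := by
    intro s
    induction s using Finset.induction_on with
    | empty =>
      rw [Finset.sum_empty]
      exact (map_one (trv (n := n) (F := F))).symm ▸ Subgroup.one_mem _
    | @insert a s ha ih =>
      rw [Finset.sum_insert ha, ofAdd_add, map_mul]
      exact Subgroup.mul_mem _ (good_single hu htf _ a le_rfl _) ih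
  rw [h1]
  exact h2 Finset.univ

/-- The dimension of the row space over `F` is the number of elementary divisors that do not vanish
in `F`. -/
lemma finrank_rowSpace {d : Fin n → ℤ} (hd : IsElementaryDivisors Γ d) :
    Module.finrank F (rowSpace Γ F) = Nat.card {i : Fin n // ((d i : ℤ) : F) ≠ 0} := by
  classical
  obtain ⟨P, Q, hP, hQ, hPQ⟩ := hd.snf
  unfold rowSpace
  rw [← Matrix.rank_eq_finrank_span_row]
  set C := (raMatrix Γ).map (Int.cast : ℤ → F) with hC
  let P' : Matrix (Fin n × Fin n) (Fin n × Fin n) F := P.map (Int.cast : ℤ → F)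
  let Q' : Matrix (Fin n) (Fin n) F := Q.map (Int.cast : ℤ → F)
  have hP' : IsUnit P'.det := by
    have : P'.det = ((P.det : ℤ) : F) := by
      have := (Int.castRingHom F).map_det P
      exact this.symm
    rw [this]
    exact hP.map (Int.castRingHom F)
  have hQ' : IsUnit Q'.det := by
    have : Q'.det = ((Q.det : ℤ) : F) := by
      have := (Int.castRingHom F).map_det Q
      exact this.symm
    rw [this]
    exact hQ.map (Int.castRingHom F)
  let E : Matrix (Fin n × Fin n) (Fin n) F := Matrix.of fun p l => if p = (l, l) then 1 else 0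
  have h1 : P' * C * Q' = E * Matrix.diagonal (fun i => ((d i : ℤ) : F)) := by
    have h2 : P' * C * Q' = (P * raMatrix Γ * Q).map (Int.castRingHom F) := by
      rw [Matrix.map_mul, Matrix.map_mul]
      rfl
    rw [h2, hPQ]
    ext p l
    rw [Matrix.map_apply, Matrix.mul_diagonal]
    simp only [E, Matrix.of_apply]
    by_cases h : p = (l, l)
    · rw [if_pos h, if_pos h, one_mul]; rfl
    · rw [if_neg h, if_neg h, zero_mul]; exact map_zero _
  have h2 : (P' * C * Q').rank = C.rank := by
    rw [Matrix.rank_mul_eq_left_of_isUnit_det _ _ hQ', Matrix.rank_mul_eq_right_of_isUnit_det _ _ hP']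
  have h3 : (E * Matrix.diagonal (fun i => ((d i : ℤ) : F))).rank =
      (Matrix.diagonal (fun i => ((d i : ℤ) : F))).rank := by
    apply le_antisymm (Matrix.rank_mul_le_right _ _)
    have h4 : E.transpose * (E * Matrix.diagonal (fun i => ((d i : ℤ) : F))) =
        Matrix.diagonal (fun i => ((d i : ℤ) : F)) := by
      rw [← Matrix.mul_assoc]
      have h5 : E.transpose * E = 1 := by
        ext i j
        rw [Matrix.mul_apply]
        simp only [Matrix.transpose_apply, E, Matrix.of_apply, ite_mul, one_mul, zero_mul]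
        rw [Finset.sum_ite_eq']
        simp only [Finset.mem_univ, if_true]
        by_cases hij : i = j
        · subst hij; simp
        · rw [Matrix.one_apply_ne hij, if_neg]
          intro h
          exact hij (Prod.ext_iff.mp h).1
      rw [h5, Matrix.one_mul]
    calc (Matrix.diagonal (fun i => ((d i : ℤ) : F))).rank
        = (E.transpose * (E * Matrix.diagonal (fun i => ((d i : ℤ) : F)))).rank := by rw [h4]
      _ ≤ _ := Matrix.rank_mul_le_right _ _
  rw [← h2, h1, h3, Matrix.rank_diagonal, Nat.card_eq_fintype_card]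

/-- `Comm_b` is a power of the commutator subgroup. -/
lemma commB_equiv {u : Fˣ} (hu : u ≠ 1) {m : ℕ} (hm : Module.finrank F (rowSpace Γ F) = m) :
    Nonempty (commB (Aff F) Γ ≃* (Fin m → commutator (Aff F))) := by
  have e : rowSpace Γ F ≃ₗ[F] (Fin m → F) := LinearEquiv.ofFinrankEq _ _ (by
    rw [hm, Module.finrank_fin_fun])
  let ψ : Multiplicative (rowSpace Γ F) →* commB (Aff F) Γ :=
    { toFun := fun x => ⟨trv (Multiplicative.ofAdd (x.toAdd : Fin n → F)),
        (mem_commB_iff hu _).mpr ⟨_, x.toAdd.2, rfl⟩⟩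
      map_one' := by
        apply Subtype.ext
        exact map_one (trv (n := n) (F := F))
      map_mul' := by
        intro x y
        apply Subtype.ext
        exact map_mul (trv (n := n) (F := F)) _ _ }
  have hψ : Function.Bijective ψ := by
    constructor
    · intro x y hxy
      have h1 : trv (Multiplicative.ofAdd (x.toAdd : Fin n → F)) =
          trv (Multiplicative.ofAdd (y.toAdd : Fin n → F)) := congrArg Subtype.val hxy
      have h2 : (x.toAdd : Fin n → F) = (y.toAdd : Fin n → F) := trv_injective h1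
      exact Subtype.ext h2
    · rintro ⟨f, hf⟩
      obtain ⟨x, hx, rfl⟩ := (mem_commB_iff hu _).mp hf
      exact ⟨Multiplicative.ofAdd ⟨x, hx⟩, rfl⟩
  let χ : Multiplicative (Fin m → F) →* (Fin m → commutator (Aff F)) :=
    { toFun := fun y => fun i => ⟨Aff.tr (Multiplicative.ofAdd (y.toAdd i)),
        (Aff.mem_commutator_iff hu _).mpr rfl⟩
      map_one' := by
        funext i
        apply Subtype.ext
        exact map_one (Aff.tr (F := F))
      map_mul' := by
        intro x y
        funext i
        apply Subtype.ext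
        exact map_mul (Aff.tr (F := F)) _ _ }
  have hχ : Function.Bijective χ := by
    constructor
    · intro x y hxy
      have h2 : x.toAdd = y.toAdd := by
        funext i
        exact congrArg (fun g : commutator (Aff F) => (g : Aff F).b) (congrFun hxy i)
      exact h2
    · intro f
      refine ⟨Multiplicative.ofAdd fun i => (f i : Aff F).b, ?_⟩
      funext i
      apply Subtype.ext
      exact (Aff.eq_tr ((Aff.mem_commutator_iff hu _).mp (f i).2)).symm
  exact ⟨(MulEquiv.ofBijective ψ hψ).symm.trans
    ((AddEquiv.toMultiplicative e.toAddEquiv).trans (MulEquiv.ofBijective χ hχ))⟩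

end Main

/-- Let `Γ` be a graph on `n` vertices whose RA matrix has exactly `k` nontrivial elementary
divisors. There is a finite nonabelian group `G` with `Comm_b(G, Γ) ≅ [G, G]^(n - k)` and `Γ` `G`-RA
if and only if distinct vertices of `Γ` have distinct closed neighbourhoods. -/
theorem result {n : ℕ} (Γ : SimpleGraph (Fin n)) (d : Fin n → ℤ) (hd : IsElementaryDivisors Γ d)
    (k : ℕ) (hk : k = (Finset.univ.filter fun i => d i ≠ 1).card) :
    (∃ (G : Type) (_ : Group G), Finite G ∧ (∃ a b : G, a * b ≠ b * a) ∧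
      Nonempty (commB G Γ ≃* (Fin (n - k) → commutator G)) ∧ IsRA G Γ) ↔
    ∀ v w : Fin n, closedNbhd Γ v = closedNbhd Γ w → v = w := by
  classical
  constructor
  · rintro ⟨G, _, -, hG, -, hRA⟩ v w hvw
    by_contra hne
    exact not_isRA_of_twins hG hne hvw hRA
  · intro htf
    -- a prime that divides all nontrivial elementary divisors
    obtain ⟨p, hp, hpd⟩ : ∃ p : ℕ, p.Prime ∧ ∀ i, d i ≠ 1 → (p : ℤ) ∣ d i := by
      by_cases h : ∃ i, d i ≠ 1
      · -- the first one
        let s := Finset.univ.filter fun i => d i ≠ 1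
        have hs : s.Nonempty := by
          obtain ⟨i, hi⟩ := h
          exact ⟨i, Finset.mem_filter.mpr ⟨Finset.mem_univ i, hi⟩⟩
        set i₀ := s.min' hs with hi₀
        have h1 : d i₀ ≠ 1 := (Finset.mem_filter.mp (s.min'_mem hs)).2
        have h2 : (d i₀).natAbs ≠ 1 := by
          have := hd.nonneg i₀
          omega
        refine ⟨(d i₀).natAbs.minFac, Nat.minFac_prime h2, fun i hi => ?_⟩
        have h3 : ((d i₀).natAbs.minFac : ℤ) ∣ d i₀ :=
          Int.natCast_dvd.mpr (Nat.minFac_dvd _)
        exact h3.trans (hd.dvd _ _ (s.min'_le i (Finset.mem_filter.mpr ⟨Finset.mem_univ i, hi⟩)))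
      · push Not at h
        exact ⟨2, Nat.prime_two, fun i hi => absurd (h i) hi⟩
    have := Fact.mk hp
    let F := GaloisField p 2
    have : Finite F := Nat.finite_of_card_ne_zero (by
      rw [GaloisField.card p 2 two_ne_zero]
      exact pow_ne_zero _ hp.ne_zero)
    -- a unit different from one
    obtain ⟨u, hu⟩ : ∃ u : Fˣ, u ≠ 1 := by
      by_contra hcon
      push Not at hcon
      have h1 : ∀ x : F, x = 0 ∨ x = 1 := by
        intro x
        by_cases hx : x = 0
        · exact Or.inl hx
        · right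
          have := hcon (Units.mk0 x hx)
          have h2 := congrArg Units.val this
          exact h2
      have h2 : Nat.card F ≤ 2 := by
        have : Function.Injective (fun x : F => decide (x = 0)) := by
          intro x y hxy
          rcases h1 x with rfl | rfl <;> rcases h1 y with rfl | rfl <;> simp_all
        have := Nat.card_le_card_of_injective _ this
        simpa using this
      rw [GaloisField.card p 2 two_ne_zero] at h2
      have h3 := hp.two_le
      nlinarith
    have hrank : Module.finrank F (rowSpace Γ F) = n - k := by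
      rw [finrank_rowSpace hd]
      have h1 : ∀ i, ((d i : ℤ) : F) ≠ 0 ↔ d i = 1 := by
        intro i
        rw [Ne, CharP.intCast_eq_zero_iff F p]
        constructor
        · intro h
          by_contra h2
          exact h (hpd i h2)
        · intro h h2
          rw [h] at h2
          have := Int.natCast_dvd_natCast.mp (by simpa using h2 : (p : ℤ) ∣ ((1 : ℕ) : ℤ))
          exact hp.one_lt.ne' (Nat.dvd_one.mp this)
      have h2 : Nat.card {i : Fin n // ((d i : ℤ) : F) ≠ 0} =
          (Finset.univ.filter fun i => d i = 1).card := by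
        rw [Nat.card_eq_fintype_card, Fintype.card_subtype]
        congr 1
        ext i
        simp only [Finset.mem_filter, Finset.mem_univ, true_and]
        exact h1 i
      rw [h2]
      have h3 := Finset.card_filter_add_card_filter_not (s := (Finset.univ : Finset (Fin n)))
        (fun i => d i = 1)
      rw [Finset.card_univ, Fintype.card_fin] at h3
      have h4 : (Finset.univ.filter fun i => ¬ d i = 1).card = k := hk.symm
      omega
    refine ⟨Aff F, inferInstance, inferInstance, ?_, commB_equiv hu hrank, isRA_aff hu htf⟩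
    refine ⟨Aff.tr (Multiplicative.ofAdd (1 : F)), ⟨0, u⟩, fun h => ?_⟩
    have h1 := commutatorElement_eq_one_iff_mul_comm.mpr h
    rw [Aff.comm_eq] at h1
    have h2 := congrArg Aff.b h1
    rw [Aff.tr_b, Aff.one_b] at h2
    rw [Aff.tr_b] at h2
    simp only [zero_mul, sub_zero, one_mul] at h2
    apply hu
    rw [Units.ext_iff, Units.val_one]
    exact (sub_eq_zero.mp h2).symm

end Pool.Agent.Results.MP_8f3806_al.TwinFree
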